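import Pool.Agent.Helper86.Ac.Goals

/-! Packet SOUND of MP_1a78aa_co: soundness of the search. -/

set_option autoImplicit false

namespace Pool.Agent.Helper77.Ac

open Pool.Agent.Helper86.Acute
open Pool.Agent.Helper86.Ac

/-- choice by a state -/
def c4 (s : St) (x y z w : Bool) : Bool := St.casesOn (motive := fun _ => Bool) s x y z w

/-- the function of a state -/
def kk (m : MB) (s : St) (v : Bool) : Bool :=
  St.casesOn (motive := fun _ => Bool) s (m.ka v) (m.kb v) (m.kc v) (m.kd v)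

/-- lawful set -/
structure Law (m : MB) : Prop where
  l1 : ∀ s x y z w, m.M x y z w = true → m.has s = true → c4 s x y z w = true
  l2 : ∀ s v, m.has s = true → kk m s v = v

theorem law0 : Law mb0 := by
  constructor
  · intro s x y z w; cases s <;> cases x <;> cases y <;> cases z <;> cases w <;> decide
  · intro s v; cases s <;> cases v <;> decide
theorem law1 : Law mb1 := by
  constructor
  · intro s x y z w; cases s <;> cases x <;> cases y <;> cases z <;> cases w <;> decide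
  · intro s v; cases s <;> cases v <;> decide
theorem law2 : Law mb2 := by
  constructor
  · intro s x y z w; cases s <;> cases x <;> cases y <;> cases z <;> cases w <;> decide
  · intro s v; cases s <;> cases v <;> decide
theorem law3 : Law mb3 := by
  constructor
  · intro s x y z w; cases s <;> cases x <;> cases y <;> cases z <;> cases w <;> decide
  · intro s v; cases s <;> cases v <;> decide
theorem law4 : Law mb4 := by
  constructor
  · intro s x y z w; cases s <;> cases x <;> cases y <;> cases z <;> cases w <;> decide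
  · intro s v; cases s <;> cases v <;> decide
theorem law5 : Law mb5 := by
  constructor
  · intro s x y z w; cases s <;> cases x <;> cases y <;> cases z <;> cases w <;> decide
  · intro s v; cases s <;> cases v <;> decide
theorem law6 : Law mb6 := by
  constructor
  · intro s x y z w; cases s <;> cases x <;> cases y <;> cases z <;> cases w <;> decide
  · intro s v; cases s <;> cases v <;> decide
theorem law7 : Law mb7 := by
  constructor
  · intro s x y z w; cases s <;> cases x <;> cases y <;> cases z <;> cases w <;> decide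
  · intro s v; cases s <;> cases v <;> decide
theorem law8 : Law mb8 := by
  constructor
  · intro s x y z w; cases s <;> cases x <;> cases y <;> cases z <;> cases w <;> decide
  · intro s v; cases s <;> cases v <;> decide
theorem law9 : Law mb9 := by
  constructor
  · intro s x y z w; cases s <;> cases x <;> cases y <;> cases z <;> cases w <;> decide
  · intro s v; cases s <;> cases v <;> decide
theorem law10 : Law mb10 := by
  constructor
  · intro s x y z w; cases s <;> cases x <;> cases y <;> cases z <;> cases w <;> decide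
  · intro s v; cases s <;> cases v <;> decide
theorem law11 : Law mb11 := by
  constructor
  · intro s x y z w; cases s <;> cases x <;> cases y <;> cases z <;> cases w <;> decide
  · intro s v; cases s <;> cases v <;> decide
theorem law12 : Law mb12 := by
  constructor
  · intro s x y z w; cases s <;> cases x <;> cases y <;> cases z <;> cases w <;> decide
  · intro s v; cases s <;> cases v <;> decide
theorem law13 : Law mb13 := by
  constructor
  · intro s x y z w; cases s <;> cases x <;> cases y <;> cases z <;> cases w <;> decide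
  · intro s v; cases s <;> cases v <;> decide
theorem law14 : Law mb14 := by
  constructor
  · intro s x y z w; cases s <;> cases x <;> cases y <;> cases z <;> cases w <;> decide
  · intro s v; cases s <;> cases v <;> decide
theorem law15 : Law mb15 := by
  constructor
  · intro s x y z w; cases s <;> cases x <;> cases y <;> cases z <;> cases w <;> decide
  · intro s v; cases s <;> cases v <;> decide

theorem law_bt (m k : ℕ) {x y : MB} (hx : Law x) (hy : Law y) : Law (bt m k x y) := by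
  unfold bt
  cases Nat.beq (Nat.land m k) 0
  · exact hy
  · exact hx

theorem law_mbs (m : ℕ) : Law (mbs m) := by
  unfold mbs
  exact law_bt _ _
    (law_bt _ _ (law_bt _ _ (law_bt _ _ law0 law1) (law_bt _ _ law2 law3))
      (law_bt _ _ (law_bt _ _ law4 law5) (law_bt _ _ law6 law7)))
    (law_bt _ _ (law_bt _ _ (law_bt _ _ law8 law9) (law_bt _ _ law10 law11))
      (law_bt _ _ (law_bt _ _ law12 law13) (law_bt _ _ law14 law15)))

theorem law_mbf (m : ℕ) : Law (mbf m) := by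
  cases m with
  | zero => exact law0
  | succ n => exact law_mbs _

/-- lawful node -/
def W9 (D : N9) : Prop := Law D.m
/-- lawful node -/
def W8 (D : N8) : Prop := Law D.m ∧ ∀ s, W9 (D.sel s)
/-- lawful node -/
def W7 (D : N7) : Prop := Law D.m ∧ ∀ s, W8 (D.sel s)
/-- lawful node -/
def W6 (D : N6) : Prop := Law D.m ∧ ∀ s, W7 (D.sel s)
/-- lawful node -/
def W5 (D : N5) : Prop := Law D.m ∧ ∀ s, W6 (D.sel s)
/-- lawful node -/
def W4 (D : N4) : Prop := Law D.m ∧ ∀ s, W5 (D.sel s)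

theorem w9 (T p : ℕ) : W9 (dN9 T p) := law_mbf _

theorem w8 (T p : ℕ) : W8 (dN8 T p) :=
  ⟨law_mbf _, fun s => by cases s <;> exact w9 _ _⟩

theorem w7 (T p : ℕ) : W7 (dN7 T p) :=
  ⟨law_mbf _, fun s => by cases s <;> exact w8 _ _⟩

theorem w6 (T p : ℕ) : W6 (dN6 T p) :=
  ⟨law_mbf _, fun s => by cases s <;> exact w7 _ _⟩

theorem w5 (T p : ℕ) : W5 (dN5 T p) :=
  ⟨law_mbf _, fun s => by cases s <;> exact w6 _ _⟩

theorem w4 (T p : ℕ) : W4 (dN4 T p) :=
  ⟨law_mbf _, fun s => by cases s <;> exact w5 _ _⟩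

theorem dn_eq (s1 s2 s3 s4 : St) : ∃ T p, (oL s1 s2 s3 s4).dn = dN4 T p := by
  cases s1 <;> cases s2 <;> cases s3 <;> cases s4 <;> exact ⟨_, _, rfl⟩

theorem w_oL (s1 s2 s3 s4 : St) : W4 (oL s1 s2 s3 s4).dn := by
  obtain ⟨T, p, h⟩ := dn_eq s1 s2 s3 s4
  rw [h]
  exact w4 T p

/-! ## The first five points -/

theorem s9 {f : St → X5 → Bool} {D : N9} (h : Pool.Agent.Helper86.Ac.w9 f D = true) (hD : W9 D)
    (s : St) (hs : D.m.has s = true) : f s (D.sel s) = true := by
  have := hD.l1 s _ _ _ _ h hs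
  cases s <;> exact this

theorem s8 {f : St → St → X5 → Bool} {D : N8} (h : Pool.Agent.Helper86.Ac.w8 f D = true)
    (hD : W8 D) (s : St) (hs : D.m.has s = true) :
    Pool.Agent.Helper86.Ac.w9 (f s) (D.sel s) = true := by
  have := hD.1.l1 s _ _ _ _ h hs
  cases s <;> exact this

theorem s7 {f : St → St → St → X5 → Bool} {D : N7} (h : Pool.Agent.Helper86.Ac.w7 f D = true)
    (hD : W7 D) (s : St) (hs : D.m.has s = true) :
    Pool.Agent.Helper86.Ac.w8 (f s) (D.sel s) = true := by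
  have := hD.1.l1 s _ _ _ _ h hs
  cases s <;> exact this

theorem s6 {f : St → St → St → St → X5 → Bool} {D : N6}
    (h : Pool.Agent.Helper86.Ac.w6 f D = true)
    (hD : W6 D) (s : St) (hs : D.m.has s = true) :
    Pool.Agent.Helper86.Ac.w7 (f s) (D.sel s) = true := by
  have := hD.1.l1 s _ _ _ _ h hs
  cases s <;> exact this

theorem s5 {f : St → St → St → St → St → X5 → Bool} {D : N5}
    (h : Pool.Agent.Helper86.Ac.w5 f D = true)
    (hD : W5 D) (s : St) (hs : D.m.has s = true) :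
    Pool.Agent.Helper86.Ac.w6 (f s) (D.sel s) = true := by
  have := hD.1.l1 s _ _ _ _ h hs
  cases s <;> exact this

theorem s4 {f : St → St → St → St → St → St → X5 → Bool} {D : N4}
    (h : Pool.Agent.Helper86.Ac.w4 f D = true)
    (hD : W4 D) (s : St) (hs : D.m.has s = true) :
    Pool.Agent.Helper86.Ac.w5 (f s) (D.sel s) = true := by
  have := hD.1.l1 s _ _ _ _ h hs
  cases s <;> exact this

/-! ## The sixth point -/

/-- the two conditional functions do nothing on an allowed state -/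
theorem two {m m' : MB} (hm : Law m) (hm' : Law m') (s : St) (hs : m.has s = true)
    (hs' : m'.has s = true) (v : Bool) : kk m s (kk m' s v) = v := by
  rw [hm'.l2 s v hs', hm.l2 s v hs]

theorem l9 {f : St → X5 → X5 → X5 → Bool} {D0 D1 D2 : N9} (h : L9 f D0 D1 D2 = true)
    (h0 : W9 D0) (h1 : W9 D1) (h2 : W9 D2) (s : St) (a0 : D0.m.has s = true)
    (a1 : D1.m.has s = true) (a2 : D2.m.has s = true) :
    f s (D0.sel s) (D1.sel s) (D2.sel s) = true := by
  have h' := h0.l1 s _ _ _ _ h a0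
  rw [← two h1 h2 s a1 a2 (f s (D0.sel s) (D1.sel s) (D2.sel s))]
  cases s <;> exact h'

theorem l8 {f : St → N9 → N9 → N9 → X5 → Bool} {D0 D1 : N8} {D2 D3 : N9}
    (h : L8 f D0 D1 D2 D3 = true)
    (h0 : W8 D0) (h1 : W8 D1) (h3 : W9 D3) (s : St) (a0 : D0.m.has s = true)
    (a1 : D1.m.has s = true) (a3 : D3.m.has s = true) :
    f s (D0.sel s) (D1.sel s) D2 (D3.sel s) = true := by
  have h' := h0.1.l1 s _ _ _ _ h a0
  rw [← two h1.1 h3 s a1 a3 (f s (D0.sel s) (D1.sel s) D2 (D3.sel s))]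
  cases s <;> exact h'

theorem l7 {f : St → St → N9 → N9 → N9 → X5 → Bool} {D0 : N7} {D1 D2 D3 : N8}
    (h : L7 f D0 D1 D2 D3 = true)
    (h0 : W7 D0) (h2 : W8 D2) (h3 : W8 D3) (s : St) (a0 : D0.m.has s = true)
    (a2 : D2.m.has s = true) (a3 : D3.m.has s = true) :
    L8 (f s) (D0.sel s) D1 (D2.sel s) (D3.sel s) = true := by
  have h' := h0.1.l1 s _ _ _ _ h a0
  rw [← two h2.1 h3.1 s a2 a3 (L8 (f s) (D0.sel s) D1 (D2.sel s) (D3.sel s))]
  cases s <;> exact h'

theorem l6 {f : St → St → St → N9 → N9 → N9 → X5 → Bool} {D0 D1 D2 D3 : N7}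
    (h : L6 f D0 D1 D2 D3 = true)
    (h1 : W7 D1) (h2 : W7 D2) (h3 : W7 D3) (s : St) (a1 : D1.m.has s = true)
    (a2 : D2.m.has s = true) (a3 : D3.m.has s = true) :
    L7 (f s) D0 (D1.sel s) (D2.sel s) (D3.sel s) = true := by
  have h' := h1.1.l1 s _ _ _ _ h a1
  rw [← two h2.1 h3.1 s a2 a3 (L7 (f s) D0 (D1.sel s) (D2.sel s) (D3.sel s))]
  cases s <;> exact h'

theorem l5 {f : St → N7 → N7 → N7 → N7 → X5 → Bool} {D0 D1 : N6} {D2 D3 : N7} {D4 : N9}
    (h : L5 f D0 D1 D2 D3 D4 = true)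
    (h0 : W6 D0) (h1 : W6 D1) (h4 : W9 D4) (s : St) (a0 : D0.m.has s = true)
    (a1 : D1.m.has s = true) (a4 : D4.m.has s = true) :
    f s (D0.sel s) (D1.sel s) D2 D3 (D4.sel s) = true := by
  have h' := h0.1.l1 s _ _ _ _ h a0
  rw [← two h1.1 h4 s a1 a4 (f s (D0.sel s) (D1.sel s) D2 D3 (D4.sel s))]
  cases s <;> exact h'

theorem l4 {f : St → St → N7 → N7 → N7 → N7 → X5 → Bool} {D0 : N5} {D1 D2 : N6} {D3 : N7}
    {D4 : N8} (h : L4 f D0 D1 D2 D3 D4 = true)
    (h0 : W5 D0) (h2 : W6 D2) (h4 : W8 D4) (s : St) (a0 : D0.m.has s = true)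
    (a2 : D2.m.has s = true) (a4 : D4.m.has s = true) :
    L5 (f s) (D0.sel s) D1 (D2.sel s) D3 (D4.sel s) = true := by
  have h' := h0.1.l1 s _ _ _ _ h a0
  rw [← two h2.1 h4.1 s a2 a4 (L5 (f s) (D0.sel s) D1 (D2.sel s) D3 (D4.sel s))]
  cases s <;> exact h'

theorem l3 {f : St → St → St → N7 → N7 → N7 → N7 → X5 → Bool} {D0 D1 D2 : N5} {D3 D4 : N7}
    (h : L3 f D0 D1 D2 D3 D4 = true)
    (h1 : W5 D1) (h2 : W5 D2) (h4 : W7 D4) (s : St) (a1 : D1.m.has s = true)
    (a2 : D2.m.has s = true) (a4 : D4.m.has s = true) :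
    L4 (f s) D0 (D1.sel s) (D2.sel s) D3 (D4.sel s) = true := by
  have h' := h1.1.l1 s _ _ _ _ h a1
  rw [← two h2.1 h4.1 s a2 a4 (L4 (f s) D0 (D1.sel s) (D2.sel s) D3 (D4.sel s))]
  cases s <;> exact h'

theorem l2 {f : St → St → St → St → N7 → N7 → N7 → N7 → X5 → Bool} {D0 : N4} {D1 D2 : N5}
    {D3 D4 : N6} (h : L2 f D0 D1 D2 D3 D4 = true)
    (h0 : W4 D0) (h3 : W6 D3) (h4 : W6 D4) (s : St) (a0 : D0.m.has s = true)
    (a3 : D3.m.has s = true) (a4 : D4.m.has s = true) :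
    L3 (f s) (D0.sel s) D1 D2 (D3.sel s) (D4.sel s) = true := by
  have h' := h0.1.l1 s _ _ _ _ h a0
  rw [← two h3.1 h4.1 s a3 a4 (L3 (f s) (D0.sel s) D1 D2 (D3.sel s) (D4.sel s))]
  cases s <;> exact h'

theorem l1 {f : St → St → St → St → St → N7 → N7 → N7 → N7 → X5 → Bool} {D0 D1 : N4}
    {D2 D3 D4 : N5} (h : L1 f D0 D1 D2 D3 D4 = true)
    (h1 : W4 D1) (h3 : W5 D3) (h4 : W5 D4) (s : St) (a1 : D1.m.has s = true)
    (a3 : D3.m.has s = true) (a4 : D4.m.has s = true) :
    L2 (f s) D0 (D1.sel s) D2 (D3.sel s) (D4.sel s) = true := by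
  have h' := h1.1.l1 s _ _ _ _ h a1
  rw [← two h3.1 h4.1 s a3 a4 (L2 (f s) D0 (D1.sel s) D2 (D3.sel s) (D4.sel s))]
  cases s <;> exact h'

theorem l0 {f : St → St → St → St → St → St → N7 → N7 → N7 → N7 → X5 → Bool}
    {D0 D1 D2 D3 D4 : N4} (h : L0 f D0 D1 D2 D3 D4 = true)
    (h2 : W4 D2) (h3 : W4 D3) (h4 : W4 D4) (s : St) (a2 : D2.m.has s = true)
    (a3 : D3.m.has s = true) (a4 : D4.m.has s = true) :
    L1 (f s) D0 D1 (D2.sel s) (D3.sel s) (D4.sel s) = true := by
  have h' := h2.1.l1 s _ _ _ _ h a2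
  rw [← two h3.1 h4.1 s a3 a4 (L1 (f s) D0 D1 (D2.sel s) (D3.sel s) (D4.sel s))]
  cases s <;> exact h'

theorem ch_true {b0 b1 : ℕ} {r : Bool} (h : ch b0 b1 r = true) (hb : b0 ≤ b1) : r = true := by
  unfold ch at h
  rw [Nat.ble_eq_true_of_le hb] at h
  exact h

theorem nP_eq (q : Pay) (k : Pay → N4 → Bool) : nP q k = k q q.dn := by
  cases q; rfl

theorem st0_start {s012 s013 s023 s123 s014 s024 s124 s034 s134 s234 : St} {x : X5}
    (h : st0 s012 s013 s023 s123 s014 s024 s124 s034 s134 s234 x = true) (hx : x.ds = 0) :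
    start s012 s013 s023 s123 s014 s024 s124 s034 s134 s234 x = true := by
  unfold st0 at h
  rw [hx] at h
  exact h

theorem mem_iff (c : C5) (h : c.mem = true) :
    c.P.dn.m.has c.s014 = true ∧ (c.P.dn.sel c.s014).m.has c.s024 = true ∧
    ((c.P.dn.sel c.s014).sel c.s024).m.has c.s124 = true ∧
    (((c.P.dn.sel c.s014).sel c.s024).sel c.s124).m.has c.s034 = true ∧
    ((((c.P.dn.sel c.s014).sel c.s024).sel c.s124).sel c.s034).m.has c.s134 = true ∧
    (((((c.P.dn.sel c.s014).sel c.s024).sel c.s124).sel c.s034).sel c.s134).m.has c.s234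
      = true := by
  unfold C5.mem at h
  simp only [Bool.and_eq_true] at h
  obtain ⟨⟨⟨⟨⟨h1, h2⟩, h3⟩, h4⟩, h5⟩, h6⟩ := h
  exact ⟨h1, h2, h3, h4, h5, h6⟩

theorem sound : SoundStmt := by
  intro s012 s013 s023 s123 s014 s024 s124 s034 s134 s234 e01 e02 e12 e03 e13 e23 e04 e14 e24 e34
    htop hc hds hc0 hb0 hc1 hb1 hc2 hb2 hc3 hb3 hc4 hb4
  obtain ⟨c1, c2, c3, c4', c5, c6⟩ := mem_iff _ hc
  obtain ⟨p1, p2, p3, p4, p5, p6⟩ := mem_iff _ hc0
  obtain ⟨q1, q2, q3, q4, q5, q6⟩ := mem_iff _ hc1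
  obtain ⟨r1, r2, r3, r4, r5, r6⟩ := mem_iff _ hc2
  obtain ⟨t1, t2, t3, t4, t5, t6⟩ := mem_iff _ hc3
  obtain ⟨u1, u2, u3, u4, u5, u6⟩ := mem_iff _ hc4
  have wc := w_oL s012 s013 s023 s123
  have k0 := w_oL s123 s124 s134 s234
  have k1 := w_oL s023 s024 s034 s234
  have k2 := w_oL s013 s014 s034 s134
  have k3 := w_oL s012 s014 s024 s124
  -- first five points
  have g4 := s4 htop wc s014 c1
  have g5 := s5 g4 (wc.2 _) s024 c2
  have g6 := s6 g5 ((wc.2 _).2 _) s124 c3
  have g7 := s7 g6 (((wc.2 _).2 _).2 _) s034 c4'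
  have g8 := s8 g7 ((((wc.2 _).2 _).2 _).2 _) s134 c5
  have g9 := s9 g8 (((((wc.2 _).2 _).2 _).2 _).2 _) s234 c6
  have h := st0_start g9 hds
  unfold start at h
  rw [nP_eq, nP_eq, nP_eq, nP_eq, nP_eq] at h
  -- sixth point: 01, 02, 12, 03, 13, 23
  have h0 := l0 h k2 k3 wc e01 r1 t1 u1
  have h1 := l1 h0 k1 (k3.2 _) (wc.2 _) e02 q1 t2 u2
  have h2 := l2 h1 k0 ((k3.2 _).2 _) ((wc.2 _).2 _) e12 p1 t3 u3
  have h3 := l3 h2 (k1.2 _) (k2.2 _) (((wc.2 _).2 _).2 _) e03 q2 r2 u4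
  have h4 := l4 h3 (k0.2 _) ((k2.2 _).2 _) ((((wc.2 _).2 _).2 _).2 _) e13 p2 r3 u5
  have h5 := l5 h4 ((k0.2 _).2 _) ((k1.2 _).2 _) (((((wc.2 _).2 _).2 _).2 _).2 _) e23 p3 q3 u6
  unfold G1 at h5
  have h5' := ch_true h5 hb4
  -- 04, 14, 24
  have h6 := l6 h5' (((k1.2 _).2 _).2 _) (((k2.2 _).2 _).2 _) (((k3.2 _).2 _).2 _) e04 q4 r4 t4
  have h7 := l7 h6 (((k0.2 _).2 _).2 _) ((((k2.2 _).2 _).2 _).2 _) ((((k3.2 _).2 _).2 _).2 _)
    e14 p4 r5 t5
  have h8 := l8 h7 ((((k0.2 _).2 _).2 _).2 _) ((((k1.2 _).2 _).2 _).2 _)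
    (((((k3.2 _).2 _).2 _).2 _).2 _) e24 p5 q5 t6
  unfold G2 at h8
  have h8' := ch_true h8 hb3
  -- 34
  have h9 := l9 h8' (((((k0.2 _).2 _).2 _).2 _).2 _) (((((k1.2 _).2 _).2 _).2 _).2 _)
    (((((k2.2 _).2 _).2 _).2 _).2 _) e34 p6 q6 r6
  unfold G3 at h9
  exact ch_true (ch_true (ch_true h9 hb0) hb1) hb2

end Pool.Agent.Helper77.Ac
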